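import Pool.Agent.Q240.PG.Game

/-!
# An oriented percolation game on `ℤ²` without a limit value

The players move together one step up at every stage, and in addition one step to the right if
both want it; a player who refuses while the other one wants the step loses one unit. On a
stationary ergodic family of vertical segments, of all scales and with alternating signs, the
payoff is `1` (even scales) or `-1` (odd scales). The segments of a scale are sparse, but very
much longer than the distance to the next one, so that at the horizon of the scale `k` the player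
who likes them reaches one of them, where he stays, or is paid for the refusal of the other one.
-/

namespace Pool.Agent.Results.MP_f59e5e_pr.NoLimitValue

open MeasureTheory Filter Topology Pool.Agent.Q240.PG

theorem good_facts {ω : Om} {k : ℕ} {z : ℤ × ℤ} (h : ω ∉ badEv k z) :
    ∃ c : ℤ, z.1 ≤ c ∧ c < z.1 + md k ∧ (∀ s : ℕ, s < hz k → on ω k (c, z.2 + s)) ∧
      ∀ j > k, ∀ x : ℤ, z.1 ≤ x → x ≤ c → ∀ s : ℕ, s < hz k → ¬ on ω j (x, z.2 + s) := by
  rw [badEv, Set.mem_union, not_or] at h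
  obtain ⟨h1, h2⟩ := h
  have h1' : ∀ s < hz k, (ω k + io k (z.1, z.2 + s)).2.val % md k ^ 2 ≠ 0 := by
    intro s hs h3
    apply h1
    simp only [Set.mem_iUnion]
    exact ⟨s, Finset.mem_range.2 hs, h3⟩
  obtain ⟨c, hc, hc'⟩ := exists_column k ω z.1 z.2 (hz k) (hz_pos k) h1'
  refine ⟨z.1 + c, by omega, by omega, hc', ?_⟩
  intro j hj x hx0 hx1 s hs h3
  apply h2
  simp only [Set.mem_iUnion]
  obtain ⟨d, rfl⟩ := Int.le.dest hx0
  exact ⟨j, hj, d, Finset.mem_range.2 (by omega), s, Finset.mem_range.2 hs, h3⟩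

theorem estimate (k : ℕ) (x c : ℤ) (h2 : c < x + md k) :
    (hz k : ℝ) / 2 ≤ (hz k : ℝ) - (c - x) - 2 * (((hz k : ℝ) - 0) / 32 + ((c : ℝ) - x + 1) * (2 * (pr k : ℝ) ^ 2) - 0) := by
  have h3 : (c : ℝ) - x + 1 ≤ md k := by
    have : c + 1 ≤ x + md k := h2
    have h4 : (c : ℝ) + 1 ≤ x + md k := by exact_mod_cast this
    linarith
  have hp : (1 : ℝ) ≤ (pr k : ℝ) ^ 2 := by
    have : (1 : ℝ) ≤ pr k := by exact_mod_cast pr_pos k
    nlinarith
  have hm : (1 : ℝ) ≤ md k := by exact_mod_cast md_pos k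
  have h5 : (hz k : ℝ) = 64 * md k * (pr k : ℝ) ^ 2 := by unfold hz; push_cast; ring
  rw [h5]
  have h6 : ((c : ℝ) - x + 1) * (2 * (pr k : ℝ) ^ 2) ≤ md k * (2 * (pr k : ℝ) ^ 2) := by gcongr
  have h7 : (md k : ℝ) * 1 ≤ md k * (pr k : ℝ) ^ 2 := by gcongr
  nlinarith

instance : Nonempty game.Strat1 := ⟨fun _ _ => true⟩
instance : Nonempty game.Strat2 := ⟨fun _ _ _ => true⟩

theorem bound (ω : Om) (σ : game.Strat1) (ρ : game.Strat2) (n : ℕ) (z : ℤ × ℤ) :
    |game.play ω σ ρ n [] z / n| ≤ 1 := by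
  refine (congrArg (fun t : ℝ => |t / n|) (game_play ω σ ρ n [] z)).trans_le ?_
  show |pl ω σ ρ n [] z / n| ≤ 1
  rw [abs_div, Nat.abs_cast]
  rcases Nat.eq_zero_or_pos n with h | h
  · subst h; simp
  · rw [div_le_one (by exact_mod_cast h)]
    exact pl_abs ω σ ρ n [] z

theorem bddBelow (ω : Om) (σ : game.Strat1) (n : ℕ) (z : ℤ × ℤ) :
    BddBelow (Set.range fun ρ : game.Strat2 => game.play ω σ ρ n [] z / n) :=
  ⟨-1, by rintro _ ⟨ρ, rfl⟩; exact (abs_le.1 (bound ω σ ρ n z)).1⟩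

theorem bddAbove (ω : Om) (n : ℕ) (z : ℤ × ℤ) :
    BddAbove (Set.range fun σ : game.Strat1 => ⨅ ρ : game.Strat2, game.play ω σ ρ n [] z / n) := by
  refine ⟨1, ?_⟩
  rintro _ ⟨σ, rfl⟩
  exact ciInf_le_of_le (bddBelow ω σ n z) (fun _ _ _ => true) (abs_le.1 (bound ω σ _ n z)).2

theorem value_ge {ω : Om} {k : ℕ} {z : ℤ × ℤ} (hk : Even k) (h : ω ∉ badEv k z) :
    1 / 2 ≤ game.value (hz k) ω z := by
  obtain ⟨c, hc1, hc2, hon, hhigh⟩ := good_facts h
  have hpos : (0 : ℝ) < hz k := by exact_mod_cast hz_pos k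
  unfold PercolationGame.value
  refine le_ciSup_of_le (bddAbove ω (hz k) z) (strat1 c) (le_ciInf fun ρ => ?_)
  refine le_trans ?_ (congrArg (fun t : ℝ => t / (hz k)) (game_play ω (strat1 c) ρ (hz k) [] z)).symm.le
  show 1 / 2 ≤ pl ω (strat1 c) ρ (hz k) [] z / (hz k)
  rw [le_div_iff₀ hpos]
  have h1 := play_ge ω k z.1 z.2 c (hz k) hk hon hhigh ρ (hz k) [] 0 0 z.1 (by omega) le_rfl le_rfl hc1
  rw [cnt_self] at h1
  have h2 := estimate k z.1 c hc2
  have h3 : (z.1, z.2 + ((0 : ℕ) : ℤ)) = z := by simp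
  rw [h3] at h1
  push_cast at h1
  linarith

theorem value_le {ω : Om} {k : ℕ} {z : ℤ × ℤ} (hk : ¬ Even k) (h : ω ∉ badEv k z) :
    game.value (hz k) ω z ≤ - (1 / 2) := by
  obtain ⟨c, hc1, hc2, hon, hhigh⟩ := good_facts h
  have hpos : (0 : ℝ) < hz k := by exact_mod_cast hz_pos k
  unfold PercolationGame.value
  refine ciSup_le fun σ => ciInf_le_of_le (bddBelow ω σ (hz k) z) (strat2 c) ?_
  refine (congrArg (fun t : ℝ => t / (hz k)) (game_play ω σ (strat2 c) (hz k) [] z)).trans_le ?_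
  show pl ω σ (strat2 c) (hz k) [] z / (hz k) ≤ - (1 / 2)
  rw [div_le_iff₀ hpos]
  have h1 := play_le ω k z.1 z.2 c (hz k) hk hon hhigh σ (hz k) [] 0 0 z.1 (by omega) le_rfl le_rfl hc1
  rw [cnt_self] at h1
  have h2 := estimate k z.1 c hc2
  have h3 : (z.1, z.2 + ((0 : ℕ) : ℤ)) = z := by simp
  rw [h3] at h1
  push_cast at h1
  linarith

theorem frequently_of {p : ℕ → Prop} {q : ℕ → Prop} (hq : ∀ N, ∃ k ≥ N, q k)
    (h : ∀ᶠ k in atTop, q k → p (hz k)) : ∃ᶠ n in atTop, p n := by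
  rw [frequently_atTop]
  intro N
  obtain ⟨K, hK⟩ := eventually_atTop.1 h
  obtain ⟨k, hk, hqk⟩ := hq (max N K)
  exact ⟨hz k, (le_trans (le_trans (le_max_left _ _) hk) (hz_ge k)), hK k (le_trans (le_max_right _ _) hk) hqk⟩

/-- **There is an oriented percolation game on `ℤ²`, with stationary ergodic payoffs, without a
limit value.** From every initial state, almost surely the value `v_n` is at least `1/2` for
infinitely many `n` and at most `-1/2` for infinitely many `n` (the payoffs lie in `[-1, 1]`). -/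
theorem result : ∃ G : PercolationGame, G.Oriented ∧ ¬ G.HasLimitValue ∧
    (∀ ω z i j, |G.g ω z i j| ≤ 1) ∧
    ∀ z : ℤ × ℤ, ∀ᵐ ω ∂G.P, (∃ᶠ n in atTop, 1 / 2 ≤ G.value n ω z) ∧
      ∃ᶠ n in atTop, G.value n ω z ≤ - (1 / 2) := by
  have key : ∀ z : ℤ × ℤ, ∀ᵐ ω ∂Pm, (∃ᶠ n in atTop, 1 / 2 ≤ game.value n ω z) ∧
      ∃ᶠ n in atTop, game.value n ω z ≤ - (1 / 2) := by
    intro z
    filter_upwards [ae_good z] with ω hω
    constructor
    · refine frequently_of (q := fun k => Even k) (fun N => ⟨2 * N, by omega, even_two_mul N⟩) ?_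
      filter_upwards [hω] with k hk he
      exact value_ge he hk
    · refine frequently_of (q := fun k => ¬ Even k) (fun N => ⟨2 * N + 1, by omega, by
        rw [Nat.not_even_iff_odd]; exact odd_two_mul_add_one N⟩) ?_
      filter_upwards [hω] with k hk he
      exact value_le he hk
  refine ⟨game, game_oriented, ?_, fun ω z i j => gg_abs ω z i j, key⟩
  intro hlim
  have h1 : ∀ᵐ ω ∂Pm, ∃ l : ℝ, Tendsto (fun n => game.value n ω 0) atTop (𝓝 l) := hlim 0
  have h2 : ∀ᵐ ω ∂Pm, False := by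
    filter_upwards [h1, key 0] with ω h3 h4
    obtain ⟨l, hl⟩ := h3
    obtain ⟨h5, h6⟩ := h4
    have h7 : 1 / 2 ≤ l := by
      by_contra hlt
      push Not at hlt
      exact h5 ((hl.eventually_lt_const hlt).mono fun n hn => not_le.2 hn)
    have h8 : l ≤ - (1 / 2) := by
      by_contra hlt
      push Not at hlt
      exact h6 ((hl.eventually_const_lt hlt).mono fun n hn => not_le.2 hn)
    linarith
  rw [eventually_false_iff_eq_bot, ae_eq_bot] at h2
  exact IsProbabilityMeasure.ne_zero Pm h2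

end Pool.Agent.Results.MP_f59e5e_pr.NoLimitValue
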